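import Pool.Agent.Helper804.Cut.Main

namespace Pool.Agent.Results.MP_a5b85f_al.SylowThree

/-- A group is semi-rational if for every `x` there is an integer `m` such that every generator
of the cyclic group generated by `x` is conjugate to `x` or to `x ^ m`. -/
def SemiRational (H : Type) [Group H] : Prop :=
  ∀ x : H, ∃ m : ℤ, ∀ y : H, Subgroup.zpowers y = Subgroup.zpowers x →
    IsConj y x ∨ IsConj y (x ^ m)

/-- A group is uniformly semi-rational if there is one integer `m` such that for every `x` every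
generator of the cyclic group generated by `x` is conjugate to `x` or to `x ^ m`. -/
def UniformlySemiRational (H : Type) [Group H] : Prop :=
  ∃ m : ℤ, ∀ x y : H, Subgroup.zpowers y = Subgroup.zpowers x →
    IsConj y x ∨ IsConj y (x ^ m)

open Pool.Agent.Helper804.Cut

theorem usr_G : UniformlySemiRational G := by
  refine ⟨-1, fun x y h => ?_⟩
  have h1 := cut x y h
  rwa [zpow_neg_one]

theorem not_isConj (x : P₀) (hx : (x : G) = x₀) : ¬ IsConj x (x ^ 4) := by
  intro h
  rw [isConj_iff] at h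
  obtain ⟨c, hc⟩ := h
  have h4 : (c : G) * x₀ * (c : G)⁻¹ = x₀ ^ 4 := by
    have := congrArg Subtype.val hc
    rw [← hx]
    exact this
  obtain ⟨s, hs⟩ := P₀_h c.1 c.2
  refine not_conj c.1 s hs ?_
  rw [← h4]
  group

theorem isConj_pow {H : Type} [Group H] {x y : H} (h : IsConj x y) (n : ℕ) :
    IsConj (x ^ n) (y ^ n) := by
  rw [isConj_iff] at h ⊢
  obtain ⟨c, hc⟩ := h
  exact ⟨c, by rw [← hc, conj_pow]⟩

theorem not_semiRational_P₀ : ¬ SemiRational P₀ := by
  intro h
  set x : P₀ := ⟨x₀, x₀_mem⟩ with hx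
  obtain ⟨m, hm⟩ := h x
  have h9 : x ^ 9 = 1 := by
    apply Subtype.ext
    exact pow_nine x₀ (one_pow 3)
  have hz4 : Subgroup.zpowers (x ^ 4) = Subgroup.zpowers x := x₀_zpowers x rfl
  have h49 : (x ^ 7) ^ 4 = x := by
    rw [← pow_mul, show 7 * 4 = 9 * 3 + 1 from rfl, pow_add, pow_mul, h9, one_pow, one_mul, pow_one]
  have hz7 : Subgroup.zpowers (x ^ 7) = Subgroup.zpowers x := by
    apply le_antisymm
    · rw [Subgroup.zpowers_le]
      exact Subgroup.pow_mem _ (Subgroup.mem_zpowers x) 7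
    · rw [Subgroup.zpowers_le]
      have h29 := Subgroup.pow_mem _ (Subgroup.mem_zpowers (x ^ 7)) 4
      rwa [h49] at h29
  have hnc : ¬ IsConj x (x ^ 4) := not_isConj x rfl
  have h16 : (x ^ 4) ^ 4 = x ^ 7 := by
    rw [← pow_mul, show 4 * 4 = 9 + 7 from rfl, pow_add, h9, one_mul]
  have hnc7 : ¬ IsConj (x ^ 7) x := by
    intro h7
    have h1 := isConj_pow h7 4
    rw [h49] at h1
    exact hnc h1
  have hnc47 : ¬ IsConj (x ^ 4) (x ^ 7) := by
    intro h47
    have h1 := isConj_pow h47 7
    have h28 : (x ^ 4) ^ 7 = x := by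
      rw [← pow_mul, show 4 * 7 = 9 * 3 + 1 from rfl, pow_add, pow_mul, h9, one_pow, one_mul,
        pow_one]
    have h77 : (x ^ 7) ^ 7 = x ^ 4 := by
      rw [← pow_mul, show 7 * 7 = 9 * 5 + 4 from rfl, pow_add, pow_mul, h9, one_pow, one_mul]
    rw [h28, h77] at h1
    exact hnc h1
  rcases hm _ hz4 with h4 | h4
  · exact hnc (isConj_comm.1 h4)
  · rcases hm _ hz7 with h7 | h7
    · exact hnc7 h7
    · exact hnc47 (h4.trans (isConj_comm.1 h7))

/-- There is a finite uniformly semi-rational group with a Sylow 3-subgroup that is not even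
semi-rational. -/
theorem result :
    ∃ (G : Type) (_ : Group G) (_ : Finite G) (P : Sylow 3 G),
      UniformlySemiRational G ∧ SemiRational G ∧
      ¬ SemiRational (P : Subgroup G) ∧ ¬ UniformlySemiRational (P : Subgroup G) := by
  have h1 : ¬ SemiRational (P : Subgroup G) := not_semiRational_P₀
  refine ⟨G, inferInstance, inferInstance, P, usr_G, ?_, h1, ?_⟩
  · obtain ⟨m, hm⟩ := usr_G
    exact fun x => ⟨m, hm x⟩
  · intro h
    obtain ⟨m, hm⟩ := h
    exact h1 fun x => ⟨m, hm x⟩

end Pool.Agent.Results.MP_a5b85f_al.SylowThree
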